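import Mathlib

open scoped ENNReal BigOperators

namespace Pool.Agent.Results.MP_ed2ca9_lc.GeneralLower

/-- The number of requests that the assignment `f` gives to site `j`. -/
def load {m n : ℕ} (f : Fin n → Fin m) (j : Fin m) : ℕ :=
  (Finset.univ.filter (fun i => f i = j)).card

/-- The total distance paid when request number `i` of the list `σ` is served from site
`s (f i)`. -/
noncomputable def cost {X : Type} [MetricSpace X] {m : ℕ} (s : Fin m → X) (σ : List X)
    (f : Fin σ.length → Fin m) : ℝ≥0∞ :=
  ∑ i : Fin σ.length, edist (s (f i)) (σ.get i)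

/-- The offline optimum for the requests `σ` when site `j` may serve at most `a j` requests. -/
noncomputable def opt {X : Type} [MetricSpace X] {m : ℕ} (a : Fin m → ℕ) (s : Fin m → X)
    (σ : List X) : ℝ≥0∞ :=
  ⨅ (f : Fin σ.length → Fin m) (_ : ∀ j, load f j ≤ a j), cost s σ f

/-- A deterministic online algorithm for `m` sites.  Given the metric space, the sites and the
list of the requests revealed so far, it names the site that serves the last request of
the list. -/
def Alg (m : ℕ) : Type 1 :=
  (X : Type) → MetricSpace X → (Fin m → X) → List X → Fin m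

/-- The assignment produced by the online algorithm on `σ`: request number `i` is assigned
knowing only the requests number `0, …, i`. -/
def assign {m : ℕ} (A : Alg m) {X : Type} [inst : MetricSpace X] (s : Fin m → X) (σ : List X) :
    Fin σ.length → Fin m :=
  fun i => A X inst s (σ.take (i + 1))

/-- On every instance with at most `∑ a j` requests the algorithm uses at most `c j` servers
of site `j`. -/
def Respects {m : ℕ} (A : Alg m) (a c : Fin m → ℕ) : Prop :=
  ∀ (X : Type) [MetricSpace X] (s : Fin m → X) (σ : List X), σ.length ≤ ∑ j, a j →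
    ∀ j, load (assign A s σ) j ≤ c j

/-- The weak competitive ratio of `A`: the supremum of `A(I) / OPT_a(I)` over all instances `I`
(metric space, sites, request sequence) with at most `∑ a j` requests. -/
noncomputable def weakRatio {m : ℕ} (A : Alg m) (a : Fin m → ℕ) : ℝ≥0∞ :=
  ⨆ (X : Type) (_ : MetricSpace X) (s : Fin m → X) (σ : List X) (_ : σ.length ≤ ∑ j, a j),
    cost s σ (assign A s σ) / opt a s σ

/-- `R*(a,c)`: the infimum of the weak competitive ratio over all deterministic online
algorithms that have `c j` servers at site `j`. -/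
noncomputable def Rstar {m : ℕ} (a c : Fin m → ℕ) : ℝ≥0∞ :=
  ⨅ (A : Alg m) (_ : Respects A a c), weakRatio A a

/-! ### A star metric with weighted legs -/

/-- The points of a star with `m` leaves whose legs have length `w i`. -/
inductive Star {m : ℕ} (w : Fin m → ℝ) : Type
  | center : Star w
  | leaf (i : Fin m) : Star w

namespace Star

variable {m : ℕ} {w : Fin m → ℝ}

/-- distance of a point of the star to the centre -/
def wt : Star w → ℝ
  | center => 0
  | leaf i => w i

open Classical in
/-- star distance -/
noncomputable def d (x y : Star w) : ℝ := if x = y then 0 else wt x + wt y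

lemma wt_nonneg (hw : ∀ i, 0 < w i) (x : Star w) : 0 ≤ wt x := by
  cases x with
  | center => simp [wt]
  | leaf i => exact (hw i).le

/-- The star is a metric space as soon as all legs have positive length. -/
@[reducible] noncomputable def metric (hw : ∀ i, 0 < w i) : MetricSpace (Star w) where
  dist := d
  dist_self x := by simp [d]
  dist_comm x y := by
    unfold d
    by_cases h : x = y
    · simp [h]
    · rw [if_neg h, if_neg (fun h' => h h'.symm), add_comm]
  dist_triangle x y z := by
    have hx := wt_nonneg hw x
    have hy := wt_nonneg hw y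
    have hz := wt_nonneg hw z
    unfold d
    by_cases h1 : x = z
    · subst h1
      rw [if_pos rfl]
      by_cases h2 : x = y
      · subst h2; simp
      · rw [if_neg h2, if_neg (fun h' => h2 h'.symm)]; linarith
    · rw [if_neg h1]
      by_cases h2 : x = y
      · subst h2; rw [if_pos rfl, if_neg h1]; linarith
      · rw [if_neg h2]
        by_cases h3 : y = z
        · subst h3; rw [if_pos rfl]; linarith
        · rw [if_neg h3]; linarith
  eq_of_dist_eq_zero := by
    intro x y h
    change d x y = 0 at h
    unfold d at h
    by_cases hxy : x = y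
    · exact hxy
    · rw [if_neg hxy] at h
      cases x with
      | center =>
        cases y with
        | center => rfl
        | leaf j => simp only [wt] at h; have := hw j; linarith
      | leaf i =>
        cases y with
        | center => simp only [wt] at h; have := hw i; linarith
        | leaf j => simp only [wt] at h; have := hw i; have := hw j; linarith

lemma d_leaf_center (i : Fin m) : d (leaf i) (center : Star w) = w i := by
  simp [d, wt]

lemma d_leaf_self (i : Fin m) : d (leaf i) (leaf i : Star w) = 0 := by
  simp [d]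

lemma d_leaf_leaf {i j : Fin m} (h : i ≠ j) : d (leaf i) (leaf j : Star w) = w i + w j := by
  simp [d, wt, h]

lemma d_nonneg (hw : ∀ i, 0 < w i) (x y : Star w) : 0 ≤ d x y := by
  unfold d
  split_ifs
  · exact le_rfl
  · exact add_nonneg (wt_nonneg hw x) (wt_nonneg hw y)

end Star

/-! ### Recursions for sums over request lists -/

lemma sum_append_one {X M : Type} [AddCommMonoid M] (F : ℕ → X → M) (σ : List X) (x : X) :
    ∑ i : Fin (σ ++ [x]).length, F i ((σ ++ [x]).get i)
      = (∑ i : Fin σ.length, F i (σ.get i)) + F σ.length x := by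
  have h1 : ∀ l : List X, ∑ i : Fin l.length, F i (l.get i) = (l.mapIdx F).sum := by
    intro l
    rw [List.mapIdx_eq_ofFn, List.sum_ofFn]
  rw [h1, h1, List.mapIdx_concat]
  simp

section real

variable {m : ℕ} {w : Fin m → ℝ}

/-- real valued cost of the algorithm `B` on the star -/
noncomputable def rc (B : List (Star w) → Fin m) (σ : List (Star w)) : ℝ :=
  ∑ i : Fin σ.length, Star.d (Star.leaf (B (σ.take (i + 1)))) (σ.get i)

/-- number of servers used at `j` -/
def ld (B : List (Star w) → Fin m) (σ : List (Star w)) (j : Fin m) : ℕ :=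
  load (fun i : Fin σ.length => B (σ.take (i + 1))) j

lemma ld_eq_sum (B : List (Star w) → Fin m) (σ : List (Star w)) (j : Fin m) :
    ld B σ j = ∑ i : Fin σ.length, if B (σ.take (i + 1)) = j then 1 else 0 := by
  unfold ld load
  rw [Finset.card_filter]

lemma rc_nil (B : List (Star w) → Fin m) : rc B [] = 0 := by simp [rc]

lemma ld_nil (B : List (Star w) → Fin m) (j : Fin m) : ld B [] j = 0 := by simp [ld, load]

lemma rc_append (B : List (Star w) → Fin m) (σ : List (Star w)) (x : Star w) :
    rc B (σ ++ [x]) = rc B σ + Star.d (Star.leaf (B (σ ++ [x]))) x := by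
  unfold rc
  have := sum_append_one (fun i y => Star.d (Star.leaf (B ((σ ++ [x]).take (i + 1)))) y) σ x
  rw [this]
  congr 1
  · apply Finset.sum_congr rfl
    intro i _
    rw [List.take_append_of_le_length (by omega)]
  · rw [List.take_of_length_le (by simp)]

lemma ld_append (B : List (Star w) → Fin m) (σ : List (Star w)) (x : Star w) (j : Fin m) :
    ld B (σ ++ [x]) j = ld B σ j + if B (σ ++ [x]) = j then 1 else 0 := by
  rw [ld_eq_sum, ld_eq_sum]
  have := sum_append_one (fun i _ => if B ((σ ++ [x]).take (i + 1)) = j then 1 else 0) σ x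
  rw [this]
  congr 1
  · apply Finset.sum_congr rfl
    intro i _
    rw [List.take_append_of_le_length (by omega)]
  · rw [List.take_of_length_le (by simp)]

lemma rc_center (B : List (Star w) → Fin m) (hw1 : ∀ i, 1 ≤ w i) (T : ℕ) :
    (T : ℝ) ≤ rc B (List.replicate T Star.center) := by
  induction T with
  | zero => simp [rc_nil]
  | succ n ih =>
    rw [List.replicate_succ', rc_append, Star.d_leaf_center]
    push_cast
    have := hw1 (B (List.replicate n Star.center ++ [Star.center]))
    linarith

/-- Serving a batch of requests at leaf `s`: cost plus twice the load at `s` grows by at least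
two with every request. -/
lemma batch (B : List (Star w) → Fin m) (hw1 : ∀ i, 1 ≤ w i) (σ : List (Star w)) (s : Fin m)
    (n : ℕ) :
    rc B σ + 2 * (ld B σ s : ℝ) + 2 * n ≤
      rc B (σ ++ List.replicate n (Star.leaf s))
        + 2 * (ld B (σ ++ List.replicate n (Star.leaf s)) s : ℝ) := by
  induction n with
  | zero => simp
  | succ n ih =>
    rw [List.replicate_succ', ← List.append_assoc, rc_append, ld_append]
    push_cast
    by_cases h : B (σ ++ List.replicate n (Star.leaf s) ++ [Star.leaf s]) = s
    · rw [if_pos h, h, Star.d_leaf_self]; linarith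
    · rw [if_neg h, Star.d_leaf_leaf h]
      have h1 := hw1 (B (σ ++ List.replicate n (Star.leaf s) ++ [Star.leaf s]))
      have h2 := hw1 s
      linarith

lemma rc_mono (B : List (Star w) → Fin m) (hw : ∀ i, 0 < w i) (σ τ : List (Star w)) :
    rc B σ ≤ rc B (σ ++ τ) := by
  induction τ using List.reverseRecOn with
  | nil => simp
  | append_singleton τ x ih =>
    rw [← List.append_assoc, rc_append]
    have := Star.d_nonneg hw (Star.leaf (B (σ ++ τ ++ [x]))) x
    linarith

lemma sum_ld (B : List (Star w) → Fin m) (σ : List (Star w)) :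
    ∑ j, ld B σ j = σ.length := by
  simp_rw [ld_eq_sum]
  rw [Finset.sum_comm]
  simp

/-- A request list that asks only for the centre and for leaves in `U`. -/
def Inside (U : Finset (Fin m)) (σ : List (Star w)) : Prop :=
  ∀ x ∈ σ, x = Star.center ∨ ∃ i ∈ U, x = Star.leaf i

/-- If no request asks for a leaf outside `U` and a leaf outside `U` with leg length at least
`W` is used, the cost is at least `W`. -/
lemma outside (B : List (Star w) → Fin m) (hw : ∀ i, 0 < w i) (U : Finset (Fin m)) (W : ℝ)
    (hW : ∀ i, i ∉ U → W ≤ w i) (σ : List (Star w)) (hσ : Inside U σ) (j : Fin m) (hj : j ∉ U)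
    (h : 0 < ld B σ j) : W ≤ rc B σ := by
  induction σ using List.reverseRecOn with
  | nil => simp [ld_nil] at h
  | append_singleton σ x ih =>
    have hσ' : Inside U σ := fun y hy => hσ y (by simp [hy])
    by_cases h0 : 0 < ld B σ j
    · exact (ih hσ' h0).trans (rc_mono B hw σ [x])
    · rw [ld_append] at h
      have hBj : B (σ ++ [x]) = j := by
        by_contra hne
        rw [if_neg hne] at h
        omega
      rw [rc_append, hBj]
      have hnn : 0 ≤ rc B σ := by
        have := rc_mono B hw [] σ
        rw [rc_nil] at this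
        simpa using this
      have hd : W ≤ Star.d (Star.leaf j) x := by
        rcases hσ x (by simp) with hx | ⟨i, hi, hx⟩
        · rw [hx, Star.d_leaf_center]; exact hW j hj
        · have hne : j ≠ i := fun h => hj (h ▸ hi)
          rw [hx, Star.d_leaf_leaf hne]
          have := hW j hj
          have := hw i
          linarith
      linarith

/-- the request list: `T` centre requests, then `a s` requests at each leaf `s` of `L` -/
def req (T : ℕ) (a : Fin m → ℕ) (L : List (Fin m)) : List (Star w) :=
  List.replicate T Star.center ++ L.flatMap (fun s => List.replicate (a s) (Star.leaf s))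

lemma req_nil (T : ℕ) (a : Fin m → ℕ) : req T a [] = List.replicate T (Star.center : Star w) := by
  simp [req]

lemma req_append (T : ℕ) (a : Fin m → ℕ) (L : List (Fin m)) (s : Fin m) :
    (req T a (L ++ [s]) : List (Star w)) = req T a L ++ List.replicate (a s) (Star.leaf s) := by
  simp [req, List.flatMap_append, List.append_assoc]

lemma req_length (T : ℕ) (a : Fin m → ℕ) (L : List (Fin m)) (hL : L.Nodup) :
    (req T a L : List (Star w)).length = T + ∑ s ∈ L.toFinset, a s := by
  rw [List.sum_toFinset _ hL]
  simp [req, List.length_flatMap]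

lemma req_inside (U : Finset (Fin m)) (T : ℕ) (a : Fin m → ℕ) (L : List (Fin m))
    (hL : ∀ s ∈ L, s ∈ U) : Inside U (req T a L : List (Star w)) := by
  intro x hx
  simp only [req, List.mem_append, List.mem_replicate, List.mem_flatMap] at hx
  rcases hx with ⟨_, h⟩ | ⟨s, hs, _, h⟩
  · exact Or.inl h
  · exact Or.inr ⟨s, hL s hs, h⟩

/-- the algorithm respects the capacities on request lists of length at most `∑ a` -/
def Ok (B : List (Star w) → Fin m) (a c : Fin m → ℕ) : Prop :=
  ∀ σ : List (Star w), σ.length ≤ ∑ j, a j → ∀ j, ld B σ j ≤ c j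

/-- The adversary.  After the `T` centre requests it repeatedly floods the leaf of `U` at which
the algorithm has used most servers (relative to the number of extra servers). -/
lemma adversary (B : List (Star w) → Fin m) (a c : Fin m → ℕ) (hB : Ok B a c)
    (U : Finset (Fin m)) (W : ℝ) (hw1 : ∀ i, 1 ≤ w i) (hW : ∀ i, i ∉ U → W ≤ w i)
    (T r : ℕ) (hr : 0 < r) (hrm : r ≤ U.card)
    (hT : ∀ S ⊆ U, S.card = r → T ≤ ∑ j ∈ S, a j) :
    ∀ q : ℕ, q ≤ U.card - r → ∃ L : List (Fin m), L.Nodup ∧ L.length = q ∧ (∀ s ∈ L, s ∈ U) ∧
      ((T : ℝ) + 2 * ((T : ℝ) - ∑ j ∈ U, ((c j : ℝ) - a j))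
          * ((harmonic U.card : ℝ) - (harmonic (U.card - q) : ℝ)) ≤ rc B (req T a L)
        ∨ W ≤ rc B (req T a L)) := by
  have hw : ∀ i, 0 < w i := fun i => lt_of_lt_of_le one_pos (hw1 i)
  intro q
  induction q with
  | zero =>
    intro _
    refine ⟨[], List.nodup_nil, rfl, by simp, Or.inl ?_⟩
    rw [req_nil]
    simpa using rc_center B hw1 T
  | succ q ih =>
    intro hq
    obtain ⟨L, hnd, hlen, hLU, hcost⟩ := ih (by omega)
    set K : Finset (Fin m) := L.toFinset with hK
    have hKU : K ⊆ U := fun x hx => hLU x (by rw [hK] at hx; exact List.mem_toFinset.1 hx)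
    have hKcard : K.card = q := by rw [hK, List.toFinset_card_of_nodup hnd, hlen]
    set S : Finset (Fin m) := U \ K with hS
    have hScard : S.card = U.card - q := by
      rw [hS, Finset.card_sdiff_of_subset hKU, hKcard]
    have hSU : S ⊆ U := Finset.sdiff_subset
    have hSpos : S.Nonempty := by
      rw [← Finset.card_pos, hScard]; omega
    have hTS : T ≤ ∑ j ∈ S, a j := by
      obtain ⟨S', hS'S, hS'card⟩ := Finset.exists_subset_card_eq (s := S) (n := r) (by omega)
      exact (hT S' (hS'S.trans hSU) hS'card).trans (Finset.sum_le_sum_of_subset hS'S)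
    have hsplit : ∀ f : Fin m → ℕ, ∑ j ∈ K, f j + ∑ j ∈ S, f j = ∑ j ∈ U, f j := by
      intro f
      rw [hS, add_comm]
      exact Finset.sum_sdiff hKU
    have hUle : ∑ j ∈ U, a j ≤ ∑ j, a j := Finset.sum_le_sum_of_subset (Finset.subset_univ U)
    have hlenσ : (req T a L : List (Star w)).length = T + ∑ s ∈ K, a s := req_length T a L hnd
    have hle : (req T a L : List (Star w)).length ≤ ∑ j, a j := by
      have := hsplit a
      rw [hlenσ]; omega
    have hld := hB (req T a L) hle
    -- the general step: flood any leaf `s` of `S`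
    have step : ∀ s ∈ S, (L ++ [s]).Nodup ∧ (L ++ [s]).length = q + 1 ∧ (∀ x ∈ L ++ [s], x ∈ U) ∧
        rc B (req T a L) + 2 * ((ld B (req T a L) s : ℝ) - ((c s : ℝ) - a s))
          ≤ rc B (req T a (L ++ [s])) := by
      intro s hsS
      have hsL : s ∉ L := by
        intro hmem
        have : s ∈ K := by rw [hK]; exact List.mem_toFinset.2 hmem
        rw [hS, Finset.mem_sdiff] at hsS
        exact hsS.2 this
      have hsU : s ∈ U := hSU hsS
      have hnd' : (L ++ [s]).Nodup := by
        rw [List.nodup_append]
        refine ⟨hnd, List.nodup_singleton _, ?_⟩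
        intro x hx y hy
        simp at hy
        subst hy
        intro hxy
        subst hxy
        exact hsL hx
      have hLU' : ∀ x ∈ L ++ [s], x ∈ U := by
        intro x hx
        rcases List.mem_append.1 hx with h | h
        · exact hLU x h
        · simp at h; rw [h]; exact hsU
      refine ⟨hnd', by simp [hlen], hLU', ?_⟩
      have hK'U : (L ++ [s]).toFinset ⊆ U := fun x hx => hLU' x (List.mem_toFinset.1 hx)
      have hle' : (req T a (L ++ [s]) : List (Star w)).length ≤ ∑ j, a j := by
        rw [req_length T a _ hnd']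
        have hcard' : ((L ++ [s]).toFinset).card = q + 1 := by
          rw [List.toFinset_card_of_nodup hnd']; simp [hlen]
        have hsub : ∃ S' : Finset (Fin m), S' ⊆ U \ (L ++ [s]).toFinset ∧ S'.card = r := by
          apply Finset.exists_subset_card_eq
          rw [Finset.card_sdiff_of_subset hK'U, hcard']
          omega
        obtain ⟨S', hS'S, hS'card⟩ := hsub
        have h1 := (hT S' (hS'S.trans Finset.sdiff_subset) hS'card).trans
          (Finset.sum_le_sum_of_subset hS'S)
        have h2 : ∑ j ∈ U \ (L ++ [s]).toFinset, a j + ∑ j ∈ (L ++ [s]).toFinset, a j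
            = ∑ j ∈ U, a j := Finset.sum_sdiff hK'U
        omega
      have hcap := hB _ hle' s
      have hb := batch B hw1 (req T a L) s (a s)
      rw [← req_append] at hb
      have hcap' : (ld B (req T a (L ++ [s])) s : ℝ) ≤ c s := by exact_mod_cast hcap
      linarith
    rcases hcost with hcost | hcost
    · by_cases hout : ∃ j, j ∉ U ∧ 0 < ld B (req T a L) j
      · -- a server outside `U` has been used
        obtain ⟨j, hj, hj0⟩ := hout
        obtain ⟨s, hsS⟩ := hSpos
        obtain ⟨h1, h2, h3, _⟩ := step s hsS
        refine ⟨L ++ [s], h1, h2, h3, Or.inr ?_⟩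
        rw [req_append]
        exact (outside B hw U W hW (req T a L) (req_inside U T a L hLU) j hj hj0).trans
          (rc_mono B hw _ _)
      · push Not at hout
        have hsum : ∑ j ∈ U, ld B (req T a L) j = T + ∑ s ∈ K, a s := by
          rw [← hlenσ, ← sum_ld B (req T a L)]
          apply Finset.sum_subset (Finset.subset_univ U)
          intro j _ hj
          have := hout j hj
          omega
        have hKle : ∑ j ∈ K, ld B (req T a L) j ≤ ∑ j ∈ K, c j :=
          Finset.sum_le_sum (fun j _ => hld j)
        have hSreal : (T : ℝ) - ∑ j ∈ U, ((c j : ℝ) - a j)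
            ≤ ∑ j ∈ S, ((ld B (req T a L) j : ℝ) - ((c j : ℝ) - a j)) := by
          have e1 := hsplit (fun j => ld B (req T a L) j)
          have e2 := hsplit a
          have e3 := hsplit c
          rw [hsum] at e1
          have e1' : (∑ j ∈ K, (ld B (req T a L) j : ℝ)) + ∑ j ∈ S, (ld B (req T a L) j : ℝ)
              = T + ∑ s ∈ K, (a s : ℝ) := by exact_mod_cast e1
          have e2' : (∑ j ∈ K, (a j : ℝ)) + ∑ j ∈ S, (a j : ℝ) = ∑ j ∈ U, (a j : ℝ) := by
            exact_mod_cast e2
          have e3' : (∑ j ∈ K, (c j : ℝ)) + ∑ j ∈ S, (c j : ℝ) = ∑ j ∈ U, (c j : ℝ) := by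
            exact_mod_cast e3
          have e4' : (∑ j ∈ K, (ld B (req T a L) j : ℝ)) ≤ ∑ j ∈ K, (c j : ℝ) := by
            exact_mod_cast hKle
          rw [Finset.sum_sub_distrib, Finset.sum_sub_distrib, Finset.sum_sub_distrib]
          linarith
        have hcardpos : (0 : ℝ) < ((U.card - q : ℕ) : ℝ) := by
          have : 0 < U.card - q := by omega
          exact_mod_cast this
        obtain ⟨s, hsS, hs⟩ : ∃ s ∈ S,
            ((T : ℝ) - ∑ j ∈ U, ((c j : ℝ) - a j)) / ((U.card - q : ℕ) : ℝ)
            ≤ (ld B (req T a L) s : ℝ) - ((c s : ℝ) - a s) := by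
          apply Finset.exists_le_of_sum_le hSpos
          rw [Finset.sum_const, hScard, nsmul_eq_mul, mul_div_cancel₀ _ (ne_of_gt hcardpos)]
          exact hSreal
        obtain ⟨h1, h2, h3, h4⟩ := step s hsS
        refine ⟨L ++ [s], h1, h2, h3, Or.inl ?_⟩
        have hharm : (harmonic (U.card - q) : ℝ)
            = (harmonic (U.card - (q + 1)) : ℝ) + 1 / ((U.card - q : ℕ) : ℝ) := by
          have h1 : U.card - q = (U.card - (q + 1)) + 1 := by omega
          rw [h1, harmonic_succ]
          push_cast
          simp [one_div]
        have hdiv : ((T : ℝ) - ∑ j ∈ U, ((c j : ℝ) - a j)) / ((U.card - q : ℕ) : ℝ)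
            = ((T : ℝ) - ∑ j ∈ U, ((c j : ℝ) - a j)) * (1 / ((U.card - q : ℕ) : ℝ)) := by ring
        rw [hdiv] at hs
        have hharm' : (harmonic (U.card - (q + 1)) : ℝ)
            = (harmonic (U.card - q) : ℝ) - 1 / ((U.card - q : ℕ) : ℝ) := by linarith
        rw [hharm']
        nlinarith [hs, hcost, h4]
    · obtain ⟨s, hsS⟩ := hSpos
      obtain ⟨h1, h2, h3, _⟩ := step s hsS
      refine ⟨L ++ [s], h1, h2, h3, Or.inr ?_⟩
      rw [req_append]
      exact hcost.trans (rc_mono B hw _ _)

/-- Offline assignments built request by request; `u j` servers of site `j` are used. -/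
def Feas (σ : List (Star w)) (b : Fin m → ℕ) (C : ℝ) : Prop :=
  ∃ f : ℕ → Fin m,
    (∀ j, ∑ i : Fin σ.length, (if f i = j then 1 else 0) ≤ b j) ∧
    ∑ i : Fin σ.length, Star.d (Star.leaf (f i)) (σ.get i) ≤ C

lemma feas_append {σ : List (Star w)} {b : Fin m → ℕ} {C : ℝ} (h : Feas σ b C) (x : Star w)
    (j : Fin m) (b' : Fin m → ℕ) (hb' : ∀ i, b i + (if j = i then 1 else 0) ≤ b' i) :
    Feas (σ ++ [x]) b' (C + Star.d (Star.leaf j) x) := by
  obtain ⟨f, hf, hC⟩ := h
  refine ⟨fun i => if i = σ.length then j else f i, ?_, ?_⟩
  · intro k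
    have := sum_append_one
      (fun i (_ : Star w) => if (if i = σ.length then j else f i) = k then 1 else 0) σ x
    rw [this]
    have h2 : ∑ i : Fin σ.length, (if (if (i : ℕ) = σ.length then j else f i) = k then 1 else 0)
        = ∑ i : Fin σ.length, (if f i = k then 1 else 0) := by
      apply Finset.sum_congr rfl
      intro i _
      rw [if_neg (by omega : ¬ ((i : ℕ) = σ.length))]
    rw [h2]
    have h3 := hf k
    have h4 := hb' k
    simp only [if_true]
    omega
  · have := sum_append_one
      (fun i (y : Star w) => Star.d (Star.leaf (if i = σ.length then j else f i)) y) σ x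
    rw [this]
    have h2 : ∑ i : Fin σ.length, Star.d (Star.leaf (if (i : ℕ) = σ.length then j else f i)) (σ.get i)
        = ∑ i : Fin σ.length, Star.d (Star.leaf (f i)) (σ.get i) := by
      apply Finset.sum_congr rfl
      intro i _
      rw [if_neg (by omega : ¬ ((i : ℕ) = σ.length))]
    rw [h2]
    simp only [if_true]
    linarith

lemma feas_center (U : Finset (Fin m)) (hU : U.Nonempty) (hw1 : ∀ i ∈ U, w i = 1) (T : ℕ) :
    ∀ b : Fin m → ℕ, (∀ j, j ∉ U → b j = 0) → T ≤ ∑ j, b j →
    Feas (List.replicate T (Star.center : Star w)) b T := by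
  induction T with
  | zero =>
    intro b _ _
    obtain ⟨j, _⟩ := hU
    refine ⟨fun _ => j, ?_, ?_⟩ <;> simp
  | succ n ih =>
    intro b hbU hb
    have hpos : ∃ j, 0 < b j := by
      by_contra hcon
      push Not at hcon
      have : ∑ j, b j = 0 := Finset.sum_eq_zero (fun j _ => by have := hcon j; omega)
      omega
    obtain ⟨j, hj⟩ := hpos
    have hjU : j ∈ U := by
      by_contra hcon
      have := hbU j hcon
      omega
    have hb2 : ∑ i, (b i - if j = i then 1 else 0) + 1 = ∑ i, b i := by
      have h1 : ∑ i : Fin m, (if j = i then 1 else 0) = 1 := by simp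
      rw [← h1, ← Finset.sum_add_distrib]
      rw [h1]
      apply Finset.sum_congr rfl
      intro i _
      by_cases hji : j = i
      · subst hji; simp; omega
      · simp [hji]
    have hfe := ih (fun i => b i - if j = i then 1 else 0)
      (fun i hi => by have := hbU i hi; simp [this]) (by omega)
    have := feas_append hfe Star.center j b (by
      intro i
      by_cases hji : j = i
      · subst hji; simp; omega
      · simp [hji])
    rw [List.replicate_succ']
    rw [Star.d_leaf_center, hw1 j hjU] at this
    push_cast
    exact this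

lemma feas_batch {σ : List (Star w)} {b : Fin m → ℕ} {C : ℝ} (h : Feas σ b C) (s : Fin m)
    (n : ℕ) :
    Feas (σ ++ List.replicate n (Star.leaf s)) (fun i => b i + if s = i then n else 0) C := by
  induction n with
  | zero => simpa using h
  | succ n ih =>
    rw [List.replicate_succ', ← List.append_assoc]
    have := feas_append ih (Star.leaf s) s (fun i => b i + if s = i then (n + 1) else 0) (by
      intro i
      by_cases hsi : s = i
      · subst hsi; simp only [if_true]; omega
      · simp [hsi])
    rw [Star.d_leaf_self, add_zero] at this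
    exact this

lemma feas_req (T : ℕ) (a : Fin m → ℕ) (L : List (Fin m)) (hL : L.Nodup) (b : Fin m → ℕ)
    (h : Feas (List.replicate T (Star.center : Star w)) b T)
    (hb : ∀ j, b j + (if j ∈ L then a j else 0) ≤ a j) :
    Feas (req T a L : List (Star w)) a T := by
  have key : ∀ L : List (Fin m), L.Nodup →
      Feas (req T a L : List (Star w)) (fun j => b j + if j ∈ L then a j else 0) T := by
    intro L
    induction L using List.reverseRecOn with
    | nil => intro _; simpa [req_nil] using h
    | append_singleton L s ih =>
      intro hnd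
      have hnd1 : L.Nodup := (List.nodup_append.1 hnd).1
      have hsL : s ∉ L := by
        intro hmem
        exact (List.nodup_append.1 hnd).2.2 s hmem s (by simp) rfl
      have h1 := feas_batch (ih hnd1) s (a s)
      rw [req_append]
      convert h1 using 2
      rename_i i
      by_cases hsi : s = i
      · subst hsi; simp [hsL]
      · have : i ≠ s := fun h => hsi h.symm
        simp [hsi, this]
  obtain ⟨f, hf, hC⟩ := key L hL
  exact ⟨f, fun j => (hf j).trans (hb j), hC⟩

end real

/-- The general lower bound, proved on a star metric with the sites at the leaves; the legs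
leading to sites outside `U` are very long. -/
theorem general {m : ℕ} (a c : Fin m → ℕ) (U : Finset (Fin m)) (T r : ℕ) (hr : 0 < r)
    (hrm : r ≤ U.card) (hT0 : 0 < T) (hT : ∀ S ⊆ U, S.card = r → T ≤ ∑ j ∈ S, a j) :
    ENNReal.ofReal (1 + 2 * (1 - (∑ j ∈ U, ((c j : ℝ) - a j)) / T)
      * ((harmonic U.card : ℝ) - (harmonic r : ℝ))) ≤ Rstar a c := by
  unfold Rstar
  refine le_iInf₂ ?_
  intro A hA
  -- the target value and the length of the long legs
  set V : ℝ := (T : ℝ) + 2 * ((T : ℝ) - ∑ j ∈ U, ((c j : ℝ) - a j))
          * ((harmonic U.card : ℝ) - (harmonic r : ℝ)) with hV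
  set W : ℝ := max 1 V with hWdef
  have hW1 : 1 ≤ W := le_max_left _ _
  set w : Fin m → ℝ := fun i => if i ∈ U then 1 else W with hwdef
  have hw1 : ∀ i, 1 ≤ w i := by
    intro i
    simp only [hwdef]
    split_ifs
    · exact le_rfl
    · exact hW1
  have hw : ∀ i, 0 < w i := fun i => lt_of_lt_of_le one_pos (hw1 i)
  have hwW : ∀ i, i ∉ U → W ≤ w i := by
    intro i hi
    simp [hwdef, hi]
  have hwU : ∀ i ∈ U, w i = 1 := by
    intro i hi
    simp [hwdef, hi]
  let inst : MetricSpace (Star w) := Star.metric hw
  have hdist : ∀ x y : Star w, dist x y = Star.d x y := fun _ _ => rfl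
  set B : List (Star w) → Fin m := A (Star w) inst Star.leaf with hBdef
  have hOk : Ok B a c := fun σ hσ j => hA (Star w) Star.leaf σ hσ j
  obtain ⟨L, hnd, hlen, hLU, hcost⟩ :=
    adversary B a c hOk U W hw1 hwW T r hr hrm hT (U.card - r) le_rfl
  have hmr : U.card - (U.card - r) = r := by omega
  rw [hmr] at hcost
  have hcost' : V ≤ rc B (req T a L) := by
    rcases hcost with h | h
    · exact h
    · exact (le_max_right _ _).trans h
  have hLU' : L.toFinset ⊆ U := fun x hx => hLU x (List.mem_toFinset.1 hx)
  have hcardK : L.toFinset.card = U.card - r := by rw [List.toFinset_card_of_nodup hnd, hlen]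
  have hcardS : (U \ L.toFinset).card = r := by
    rw [Finset.card_sdiff_of_subset hLU', hcardK]
    omega
  have hTS := hT _ Finset.sdiff_subset hcardS
  have hsumsplit : ∑ j ∈ U \ L.toFinset, a j + ∑ j ∈ L.toFinset, a j = ∑ j ∈ U, a j :=
    Finset.sum_sdiff hLU'
  have hUle : ∑ j ∈ U, a j ≤ ∑ j, a j := Finset.sum_le_sum_of_subset (Finset.subset_univ U)
  have hlenle : (req T a L : List (Star w)).length ≤ ∑ j, a j := by
    rw [req_length T a L hnd]; omega
  have hUne : U.Nonempty := by rw [← Finset.card_pos]; omega
  -- offline assignment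
  have hfeas : Feas (req T a L : List (Star w)) a T := by
    refine feas_req T a L hnd (fun j => if j ∈ U \ L.toFinset then a j else 0) ?_ ?_
    · apply feas_center U hUne hwU
      · intro j hj
        rw [if_neg]
        intro h
        exact hj (Finset.mem_sdiff.1 h).1
      · rw [Finset.sum_ite_mem, Finset.univ_inter]
        exact hTS
    · intro j
      by_cases h : j ∈ L <;> simp [h]
      split_ifs <;> omega
  have hopt : opt a (Star.leaf : Fin m → Star w) (req T a L) ≤ ENNReal.ofReal T := by
    obtain ⟨f, hf, hC⟩ := hfeas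
    unfold opt
    refine iInf₂_le_of_le (fun i => f i) ?_ ?_
    · intro j
      unfold load
      rw [Finset.card_filter]
      exact hf j
    · unfold cost
      simp_rw [edist_dist]
      rw [← ENNReal.ofReal_sum_of_nonneg (fun i _ => dist_nonneg)]
      exact ENNReal.ofReal_le_ofReal hC
  have hcosteq : cost (Star.leaf : Fin m → Star w) (req T a L) (assign A Star.leaf (req T a L))
      = ENNReal.ofReal (rc B (req T a L)) := by
    unfold cost rc assign
    simp_rw [edist_dist]
    rw [← ENNReal.ofReal_sum_of_nonneg (fun i _ => dist_nonneg)]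
    rfl
  have hTpos : (0 : ℝ) < T := by exact_mod_cast hT0
  have hmain : ENNReal.ofReal (1 + 2 * (1 - (∑ j ∈ U, ((c j : ℝ) - a j)) / T)
      * ((harmonic U.card : ℝ) - (harmonic r : ℝ)))
      ≤ cost (Star.leaf : Fin m → Star w) (req T a L) (assign A Star.leaf (req T a L))
        / opt a (Star.leaf : Fin m → Star w) (req T a L) := by
    rw [hcosteq]
    refine le_trans ?_ (ENNReal.div_le_div_left hopt _)
    rw [← ENNReal.ofReal_div_of_pos hTpos]
    apply ENNReal.ofReal_le_ofReal
    rw [le_div_iff₀ hTpos]
    refine le_trans (le_of_eq ?_) hcost'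
    rw [hV]
    field_simp
  refine hmain.trans ?_
  unfold weakRatio
  exact le_iSup_of_le (Star w) (le_iSup_of_le inst (le_iSup_of_le Star.leaf
    (le_iSup_of_le (req T a L) (le_iSup_of_le hlenle le_rfl))))

/-! ### Sanity check: there are algorithms respecting the capacities -/

lemma load_getD {m : ℕ} (l : List (Fin m)) (x : Fin m) (j : Fin m) (n : ℕ) (hn : n ≤ l.length) :
    load (fun i : Fin n => l.getD i x) j = (l.take n).count j := by
  induction n with
  | zero => simp [load]
  | succ n ih =>
    have ih' := ih (by omega)
    unfold load at ih' ⊢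
    rw [Finset.card_filter] at ih' ⊢
    rw [Fin.sum_univ_castSucc]
    simp only [Fin.val_castSucc, Fin.val_last]
    rw [ih']
    have hlt : n < l.length := by omega
    have hget : l.getD n x = l[n] := by
      rw [List.getD_eq_getElem?_getD, List.getElem?_eq_getElem hlt]; rfl
    rw [List.take_add_one, List.count_append, List.getElem?_eq_getElem hlt]
    simp only [hget]
    simp [List.count_singleton]

/-- If `a ≤ c` there is an online algorithm that respects the capacities `c`. -/
theorem exists_respects {m : ℕ} (hm : 0 < m) (a c : Fin m → ℕ) (hac : ∀ j, a j ≤ c j) :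
    ∃ A : Alg m, Respects A a c := by
  classical
  set l : List (Fin m) := (List.finRange m).flatMap (fun j => List.replicate (c j) j) with hl
  have hlen : l.length = ∑ j, c j := by
    rw [hl, List.length_flatMap, Fin.sum_univ_def]
    simp [List.length_replicate]
  have hcount : ∀ j, l.count j = c j := by
    intro j
    rw [hl, List.count_flatMap]
    simp only [Function.comp_def, List.count_replicate]
    rw [← Fin.sum_univ_def]
    simp
  refine ⟨fun X _ s σ => l.getD (σ.length - 1) ⟨0, hm⟩, ?_⟩
  intro X _ s σ hσ j
  have hσl : σ.length ≤ l.length := by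
    rw [hlen]; exact hσ.trans (Finset.sum_le_sum (fun j _ => hac j))
  rw [← hcount j]
  have h1 : load (assign (fun X _ s σ => l.getD (σ.length - 1) ⟨0, hm⟩) s σ) j
      = (l.take σ.length).count j := by
    rw [← load_getD l ⟨0, hm⟩ j σ.length hσl]
    congr 1
    funext i
    unfold assign
    have : (List.take (i + 1) σ).length - 1 = i := by
      rw [List.length_take]; omega
    simp only [this]
  rw [h1]
  exact (List.take_sublist _ _).count_le j

/-- General lower bound on `R*(a,c)` for arbitrary capacity vectors. Let `U` be a set of sites,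
`1 ≤ r ≤ |U|`, and let `T > 0` be such that any `r` sites of `U` have together at least `T`
offline servers. With `E = ∑_{j ∈ U} (c j - a j)` the number of extra servers at the sites
of `U`, one has `R*(a,c) ≥ 1 + 2 (1 - E/T) (H_{|U|} - H_r)`. -/
theorem result (m : ℕ) (a c : Fin m → ℕ) (_hac : ∀ j, a j < c j) (U : Finset (Fin m))
    (r T : ℕ) (hr : 0 < r) (hrU : r ≤ U.card) (hT0 : 0 < T)
    (hT : ∀ S ⊆ U, S.card = r → T ≤ ∑ j ∈ S, a j) :
    ENNReal.ofReal (1 + 2 * (1 - (∑ j ∈ U, ((c j : ℝ) - (a j : ℝ))) / T)
      * ((harmonic U.card : ℝ) - (harmonic r : ℝ))) ≤ Rstar a c :=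
  general a c U T r hr hrU hT0 hT

end Pool.Agent.Results.MP_ed2ca9_lc.GeneralLower
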