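import Pool.Agent.Results.MP_ed2ca9_lc.NoConstant

open scoped ENNReal BigOperators

namespace Pool.Agent.Results.MP_ed2ca9_lc.HarmonicLower

open Pool.Agent.Results.MP_ed2ca9_lc.NoConstant

/-- One extra server per site: for every `m ≥ 1` and all capacities `c_j ≥ 2m+1` there are
deterministic online algorithms respecting `c`, and each of them has weak competitive ratio at
least the harmonic number `H_m`; that is `R*(c-1,c) ≥ H_m = 1 + 1/2 + ... + 1/m`. -/
theorem result (m : ℕ) (hm : 1 ≤ m) (c : Fin m → ℕ) (hc : ∀ j, 2 * m + 1 ≤ c j) :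
    (∃ A : Alg m, Respects A (fun j => c j - 1) c) ∧
      ENNReal.ofReal (∑ k ∈ Finset.range m, 1 / ((k : ℝ) + 1)) ≤ Rstar (fun j => c j - 1) c := by
  refine ⟨?_, ?_⟩
  · exact exists_respects hm (fun j => c j - 1) c (fun j => Nat.sub_le _ _)
  · have h := harmonic_le hm c hc
    have h2 : ((harmonic m : ℚ) : ℝ) = ∑ k ∈ Finset.range m, 1 / ((k : ℝ) + 1) := by
      rw [harmonic]
      push_cast
      apply Finset.sum_congr rfl
      intro k _
      rw [one_div]
    rw [← h2]
    exact h

end Pool.Agent.Results.MP_ed2ca9_lc.HarmonicLower
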